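import Pool.Agent.helper57.LD.Z0
import Pool.Agent.helper13.LD.E3

/-!
Project LD, module Z: the expansion for the zeta function.
-/

set_option autoImplicit false

open Complex Metric

namespace Pool.Agent.helper6.LD

theorem zeta_expansion (M : ℝ) (hM : 2 ≤ M) : ∃ C : ℝ, 0 < C ∧ ∀ (y : ℝ) (k : ℕ), M + 2 ≤ y →
    1 ≤ k →
    ‖∑' n : ℕ, (wt M k n : ℂ) * (n : ℂ) ^ (-(y * I)) +
      ∑ᶠ ρ ∈ {ρ : ℂ | ρ ∈ closedBall ((M : ℂ) + y * I) (M - 1 / 4) ∧ riemannZeta ρ = 0},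
        (analyticOrderNatAt riemannZeta ρ : ℂ) * (((M : ℂ) + y * I - ρ) ^ k)⁻¹‖
      ≤ C * k ^ 2 * Real.log y * ((M - 1 / 4) ^ k)⁻¹ :=
  h57_zeta_expansion (fun R R' hR hRR => expansion R R' hR hRR) M hM

end Pool.Agent.helper6.LD
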