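import Pool.Agent.helper6.LD.Defs
import Pool.Agent.helper85.LD.G1

/-!
Project LD, module Z: the series side of the expansion, and the expansion for the zeta function
(with the local expansion E3 as a hypothesis; see `Z.lean` for the final form).
-/

set_option autoImplicit false

open Complex Metric LSeries

namespace Pool.Agent.helper6.LD

/-- The statement of the local expansion of a logarithmic derivative (module E3). -/
def H57Expansion : Prop := ∀ (R R' : ℝ), 0 < R → R < R' → ∃ C : ℝ, 0 < C ∧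
    ∀ (f : ℂ → ℂ) (c : ℂ) (B : ℝ) (k : ℕ), 1 ≤ k → 1 ≤ B →
      AnalyticOnNhd ℂ f (closedBall c R') → f c ≠ 0 →
      (∀ z ∈ closedBall c R', ‖f z‖ ≤ Real.exp B * ‖f c‖) →
      ‖iteratedDeriv (k - 1) (logDeriv f) c / (k - 1).factorial +
        ∑ᶠ ρ ∈ {ρ : ℂ | ρ ∈ closedBall c R ∧ f ρ = 0},
          (analyticOrderNatAt f ρ : ℂ) * ((ρ - c) ^ k)⁻¹‖ ≤ C * B * k ^ 2 * (R ^ k)⁻¹

theorem h57_logMul_iter (f : ℕ → ℂ) (m n : ℕ) :
    (logMul^[m] f) n = (Complex.log n) ^ m * f n := by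
  induction m generalizing n with
  | zero => simp
  | succ m ih =>
    rw [Function.iterate_succ_apply']
    show Complex.log n * (logMul^[m] f) n = _
    rw [ih, pow_succ]; ring

theorem h57_absc : abscissaOfAbsConv (fun n => ((ArithmeticFunction.vonMangoldt n : ℝ) : ℂ)) ≤ 1 := by
  apply LSeries.abscissaOfAbsConv_le_of_forall_lt_LSeriesSummable (x := 1)
  intro y hy
  exact ArithmeticFunction.LSeriesSummable_vonMangoldt (s := (y : ℂ)) (by simpa using hy)

/-- the term of the series -/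
theorem h57_term (M : ℝ) (k : ℕ) (y : ℝ) (n : ℕ) :
    (wt M k n : ℂ) * (n : ℂ) ^ (-(y * I)) =
      ((k - 1).factorial : ℂ)⁻¹ *
        term (logMul^[k-1] (fun n => ((ArithmeticFunction.vonMangoldt n : ℝ) : ℂ)))
          ((M : ℂ) + y * I) n := by
  rcases Nat.eq_zero_or_pos n with hn | hn
  · subst hn
    simp [wt]
  · rw [term_of_ne_zero hn.ne', h57_logMul_iter]
    have hn0 : (n : ℂ) ≠ 0 := by exact_mod_cast hn.ne'
    unfold wt
    push_cast
    rw [Complex.cpow_add _ _ hn0, Complex.cpow_neg]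
    have h1 : (((n : ℝ) ^ (-M) : ℝ) : ℂ) = ((n : ℂ) ^ (M : ℂ))⁻¹ := by
      rw [Complex.ofReal_cpow (by positivity)]
      push_cast
      rw [Complex.cpow_neg]
    rw [h1]
    have h3 : ((n : ℂ) ^ (M : ℂ)) ≠ 0 := by
      rw [Ne, Complex.cpow_eq_zero_iff]; tauto
    have h4 : ((n : ℂ) ^ (y * I)) ≠ 0 := by
      rw [Ne, Complex.cpow_eq_zero_iff]; tauto
    have h5 : (((k - 1).factorial : ℂ)) ≠ 0 := by exact_mod_cast (k-1).factorial_ne_zero
    field_simp

theorem h57_summable {M : ℝ} (hM : 1 < M) (k : ℕ) (y : ℝ) :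
    LSeriesSummable (logMul^[k-1] (fun n => ((ArithmeticFunction.vonMangoldt n : ℝ) : ℂ)))
          ((M : ℂ) + y * I) := by
  apply LSeriesSummable_of_abscissaOfAbsConv_lt_re
  rw [absicssaOfAbsConv_logPowMul]
  refine lt_of_le_of_lt h57_absc ?_
  simp only [add_re, ofReal_re, mul_re, I_re, mul_zero, ofReal_im, I_im, mul_one, sub_self, add_zero]
  exact_mod_cast hM

theorem wt_summable {M : ℝ} (hM : 1 < M) (k : ℕ) : Summable (wt M k) := by
  have h := h57_summable hM k 0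
  have h2 : Summable (fun n => ((wt M k n : ℝ) : ℂ)) := by
    have h3 := h.mul_left (((k - 1).factorial : ℂ)⁻¹)
    refine h3.congr fun n => ?_
    rw [← h57_term M k 0 n]
    simp
  exact_mod_cast Complex.summable_ofReal.mp h2

theorem h57_series {M : ℝ} (k : ℕ) (y : ℝ) :
    ∑' n : ℕ, (wt M k n : ℂ) * (n : ℂ) ^ (-(y * I)) = ((k - 1).factorial : ℂ)⁻¹ *
      LSeries (logMul^[k-1] (fun n => ((ArithmeticFunction.vonMangoldt n : ℝ) : ℂ)))
          ((M : ℂ) + y * I) := by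
  rw [tsum_congr (h57_term M k y), tsum_mul_left]
  rfl

theorem h57_deriv {M : ℝ} (hM : 1 < M) (k : ℕ) (y : ℝ) :
    iteratedDeriv (k - 1) (logDeriv riemannZeta) ((M : ℂ) + y * I) =
      - ((-1) ^ (k - 1) * LSeries (logMul^[k-1]
        (fun n => ((ArithmeticFunction.vonMangoldt n : ℝ) : ℂ))) ((M : ℂ) + y * I)) := by
  have hre : ((M : ℂ) + y * I).re = M := by simp
  have h1 : logDeriv riemannZeta =ᶠ[nhds ((M : ℂ) + y * I)]
      (-(LSeries (fun n => ((ArithmeticFunction.vonMangoldt n : ℝ) : ℂ)))) := by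
    have ho : {s : ℂ | 1 < s.re} ∈ nhds ((M : ℂ) + y * I) :=
      (isOpen_lt continuous_const Complex.continuous_re).mem_nhds (by rw [Set.mem_ofPred_eq, hre]; exact hM)
    filter_upwards [ho] with s hs
    rw [Pi.neg_apply, ArithmeticFunction.LSeries_vonMangoldt_eq_deriv_riemannZeta_div hs, logDeriv_apply]
    ring
  rw [h1.iteratedDeriv_eq, iteratedDeriv_neg, LSeries_iteratedDeriv]
  refine lt_of_le_of_lt h57_absc ?_
  rw [hre]
  exact_mod_cast hM

theorem h57_zeta_expansion (expansion : H57Expansion) (M : ℝ) (hM : 2 ≤ M) : ∃ C : ℝ, 0 < C ∧ ∀ (y : ℝ) (k : ℕ), M + 2 ≤ y →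
    1 ≤ k →
    ‖∑' n : ℕ, (wt M k n : ℂ) * (n : ℂ) ^ (-(y * I)) +
      ∑ᶠ ρ ∈ {ρ : ℂ | ρ ∈ closedBall ((M : ℂ) + y * I) (M - 1 / 4) ∧ riemannZeta ρ = 0},
        (analyticOrderNatAt riemannZeta ρ : ℂ) * (((M : ℂ) + y * I - ρ) ^ k)⁻¹‖
      ≤ C * k ^ 2 * Real.log y * ((M - 1 / 4) ^ k)⁻¹ := by
  obtain ⟨C₁, hC₁, hgrow⟩ := zeta_growth
  obtain ⟨C₂, hC₂, hexp⟩ := expansion (M - 1 / 4) (M - 1 / 8) (by linarith) (by linarith)
  have hL0 : 0 ≤ Real.log (max 1 (12 * C₁)) := Real.log_nonneg (le_max_left _ _)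
  refine ⟨C₂ * (1 + Real.log (max 1 (12 * C₁))), by positivity, ?_⟩
  intro y k hy hk
  have hy4 : 4 ≤ y := by linarith
  have hlog1 : 1 ≤ Real.log y := by
    rw [Real.le_log_iff_exp_le (by linarith)]
    exact le_trans (by have := Real.exp_one_lt_d9; linarith) hy4
  have hre : ((M : ℂ) + y * I).re = M := by simp
  have him : ((M : ℂ) + y * I).im = y := by simp
  set c : ℂ := (M : ℂ) + y * I with hc
  set B : ℝ := (1 + Real.log (max 1 (12 * C₁))) * Real.log y with hB
  have hB1 : 1 ≤ B := by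
    rw [hB]; nlinarith
  have hzc : 1 / 4 ≤ ‖riemannZeta c‖ := zeta_lower (by rw [hre]; exact hM)
  -- bounds on the ball
  have hball : ∀ z ∈ closedBall c (M - 1 / 8), 1 / 8 ≤ z.re ∧ 1 ≤ |z.im| ∧ ‖z‖ ≤ 3 * y := by
    intro z hz
    rw [mem_closedBall, dist_eq_norm] at hz
    have h1 := Complex.abs_re_le_norm (z - c)
    have h2 := Complex.abs_im_le_norm (z - c)
    rw [Complex.sub_re, hre] at h1
    rw [Complex.sub_im, him] at h2
    have h1' := (abs_le.mp (h1.trans hz)).1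
    have h2' := (abs_le.mp (h2.trans hz)).1
    refine ⟨by linarith, ?_, ?_⟩
    · refine le_trans ?_ (le_abs_self _); linarith
    · have h3 : ‖z‖ ≤ ‖z - c‖ + ‖c‖ := by
        have := norm_add_le (z - c) c
        simpa using this
      have h4 : ‖c‖ ≤ M + y := by
        rw [hc]
        refine (norm_add_le _ _).trans ?_
        rw [norm_mul, Complex.norm_I, Complex.norm_real, Complex.norm_real, mul_one,
          Real.norm_of_nonneg (by linarith), Real.norm_of_nonneg (by linarith)]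
      linarith
  have han : AnalyticOnNhd ℂ riemannZeta (closedBall c (M - 1 / 8)) := by
    have hd : DifferentiableOn ℂ riemannZeta ({1}ᶜ : Set ℂ) := fun z hz =>
      (differentiableAt_riemannZeta hz).differentiableWithinAt
    have ha := hd.analyticOnNhd isOpen_compl_singleton
    intro z hz
    apply ha
    intro h1
    have := (hball z hz).2.1
    rw [h1] at this
    simp at this
    linarith
  have hbd : ∀ z ∈ closedBall c (M - 1 / 8), ‖riemannZeta z‖ ≤ Real.exp B * ‖riemannZeta c‖ := by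
    intro z hz
    obtain ⟨hz1, hz2, hz3⟩ := hball z hz
    have h1 := hgrow z hz1 hz2
    have h2 : 12 * C₁ * y ≤ Real.exp B := by
      have h3 : max 1 (12 * C₁) * y ≤ Real.exp B := by
        have hpos : 0 < max 1 (12 * C₁) := lt_of_lt_of_le one_pos (le_max_left _ _)
        rw [← Real.log_le_iff_le_exp (by positivity), Real.log_mul hpos.ne' (by linarith), hB]
        nlinarith
      refine le_trans ?_ h3
      have := le_max_right 1 (12 * C₁)
      nlinarith
    have h5 : ‖riemannZeta z‖ ≤ 3 * C₁ * y := by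
      refine h1.trans ?_
      nlinarith
    have h6 : Real.exp B * (1 / 4) ≤ Real.exp B * ‖riemannZeta c‖ :=
      mul_le_mul_of_nonneg_left hzc (Real.exp_pos _).le
    linarith
  have hne : riemannZeta c ≠ 0 := by
    intro h
    rw [h, norm_zero] at hzc
    linarith
  have hmain := hexp riemannZeta c B k hk hB1 han hne hbd
  have hder := h57_deriv (M := M) (by linarith) k y
  rw [← hc] at hder
  rw [h57_series, ← hc]
  rw [hder] at hmain
  have hk1 : k = (k - 1) + 1 := by omega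
  have hsgn : ((-1 : ℂ)) ^ k = - (-1) ^ (k - 1) := by
    rw [hk1]
    simp [pow_succ]
  have hfin : ∑ᶠ ρ ∈ {ρ : ℂ | ρ ∈ closedBall c (M - 1 / 4) ∧ riemannZeta ρ = 0},
        (analyticOrderNatAt riemannZeta ρ : ℂ) * ((ρ - c) ^ k)⁻¹ = (-1) ^ k *
      ∑ᶠ ρ ∈ {ρ : ℂ | ρ ∈ closedBall c (M - 1 / 4) ∧ riemannZeta ρ = 0},
        (analyticOrderNatAt riemannZeta ρ : ℂ) * ((c - ρ) ^ k)⁻¹ := by
    have h0 : ∀ ρ : ℂ, (analyticOrderNatAt riemannZeta ρ : ℂ) * ((ρ - c) ^ k)⁻¹ =
        (-1) ^ k * ((analyticOrderNatAt riemannZeta ρ : ℂ) * ((c - ρ) ^ k)⁻¹) := by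
      intro ρ
      have : (ρ - c) ^ k = (-1) ^ k * (c - ρ) ^ k := by
        rw [← mul_pow]; ring
      rw [this, mul_inv]
      rcases neg_one_pow_eq_or ℂ k with h | h <;> rw [h]
      · simp
      · simp
    simp_rw [h0]
    rcases neg_one_pow_eq_or ℂ k with h | h <;> rw [h]
    · simp
    · simp only [neg_mul, one_mul]
      simp only [finsum_neg_distrib]
  rw [hfin] at hmain
  have heq : -((-1) ^ (k - 1) * LSeries (logMul^[k-1]
        (fun n => ((ArithmeticFunction.vonMangoldt n : ℝ) : ℂ))) c) / ((k - 1).factorial : ℂ) +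
      (-1) ^ k * ∑ᶠ ρ ∈ {ρ : ℂ | ρ ∈ closedBall c (M - 1 / 4) ∧ riemannZeta ρ = 0},
        (analyticOrderNatAt riemannZeta ρ : ℂ) * ((c - ρ) ^ k)⁻¹ =
      (-1) ^ k * (((k - 1).factorial : ℂ)⁻¹ * LSeries (logMul^[k-1]
        (fun n => ((ArithmeticFunction.vonMangoldt n : ℝ) : ℂ))) c +
      ∑ᶠ ρ ∈ {ρ : ℂ | ρ ∈ closedBall c (M - 1 / 4) ∧ riemannZeta ρ = 0},
        (analyticOrderNatAt riemannZeta ρ : ℂ) * ((c - ρ) ^ k)⁻¹) := by
    rw [hsgn]; ring
  rw [heq, norm_mul, norm_pow, norm_neg, norm_one, one_pow, one_mul] at hmain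
  refine hmain.trans (le_of_eq ?_)
  rw [hB]; ring

end Pool.Agent.helper6.LD
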